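import Pool.Agent.helper62.RS.SpecG
import Pool.Agent.helper91.QU.DOB
import Pool.Agent.helper62.QU.INV

/-!
# Row GPE: the periodisation of a function with compact support
-/

open scoped MatrixGroups ContDiff Topology UpperHalfPlane
open UpperHalfPlane MeasureTheory Filter Set

namespace Pool.Agent.RS

/-- the number of `γ` with `g⁻¹ γ z` in a compact set is bounded uniformly in `g`, `z` -/
theorem GPE_count (Γ : Subgroup SL(2, ℝ)) (hΓ : QU.SurfaceGroup Γ) (K : Set ℍ) (hK : IsCompact K) :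
    ∃ n : ℕ, ∀ (g : SL(2, ℝ)) (z : ℍ), {γ : Γ | g⁻¹ • ((γ : SL(2, ℝ)) • z) ∈ K}.Finite ∧
      {γ : Γ | g⁻¹ • ((γ : SL(2, ℝ)) • z) ∈ K}.ncard ≤ n := by
  classical
  obtain ⟨R, hR⟩ := hK.isBounded.subset_closedBall I
  obtain ⟨K₀, hK₀, hcov⟩ := hΓ.cocompact
  have hK₁ : IsCompact (Metric.cthickening R K₀) := hK₀.cthickening
  have hE := hΓ.discrete _ hK₁
  refine ⟨{γ : Γ | ∃ z ∈ Metric.cthickening R K₀, γ • z ∈ Metric.cthickening R K₀}.ncard, ?_⟩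
  intro g z
  obtain ⟨γ₁, hγ₁⟩ := hcov (g • I)
  have key : ∀ γ : Γ, g⁻¹ • ((γ : SL(2, ℝ)) • z) ∈ K →
      γ₁ • γ • z ∈ Metric.cthickening R K₀ := by
    intro γ hγ
    have h1 := hR hγ
    rw [Metric.mem_closedBall] at h1
    refine Metric.mem_cthickening_of_dist_le _ (γ₁ • g • I) R K₀ hγ₁ ?_
    have h2 : dist (γ₁ • γ • z) (γ₁ • g • I) = dist (g⁻¹ • ((γ : SL(2, ℝ)) • z)) I := by
      have h3 : dist (γ₁ • γ • z) (γ₁ • g • I) = dist (γ • z) (g • I) :=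
        dist_smul (γ₁ : SL(2, ℝ)) (γ • z) (g • I)
      rw [h3]
      have h4 := dist_smul g⁻¹ (γ • z) (g • I)
      rw [inv_smul_smul] at h4
      exact h4.symm
    rw [h2]
    exact h1
  rcases Set.eq_empty_or_nonempty {γ : Γ | g⁻¹ • ((γ : SL(2, ℝ)) • z) ∈ K} with h0 | ⟨σ, hσ⟩
  · rw [h0]
    exact ⟨Set.finite_empty, by simp⟩
  · have hsub : {γ : Γ | g⁻¹ • ((γ : SL(2, ℝ)) • z) ∈ K} ⊆
        (fun ε : Γ => γ₁⁻¹ * ε * γ₁ * σ) ''
          {γ : Γ | ∃ z ∈ Metric.cthickening R K₀, γ • z ∈ Metric.cthickening R K₀} := by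
      intro γ hγ
      refine ⟨γ₁ * γ * σ⁻¹ * γ₁⁻¹, ⟨γ₁ • σ • z, key σ hσ, ?_⟩, ?_⟩
      · have h5 : (γ₁ * γ * σ⁻¹ * γ₁⁻¹) • γ₁ • σ • z = γ₁ • γ • z := by
          rw [smul_smul, smul_smul, smul_smul]
          congr 1
          group
        rw [h5]
        exact key γ hγ
      · show γ₁⁻¹ * (γ₁ * γ * σ⁻¹ * γ₁⁻¹) * γ₁ * σ = γ
        group
    refine ⟨(hE.image _).subset hsub, ?_⟩
    exact (Set.ncard_le_ncard hsub (hE.image _)).trans (Set.ncard_image_le hE)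

theorem GPE_supp (f : ℍ → ℂ) (g : SL(2, ℝ)) (Γ : Subgroup SL(2, ℝ)) (z : ℍ) (γ : Γ)
    (h : f (g⁻¹ • ((γ : SL(2, ℝ)) • z)) ≠ 0) : g⁻¹ • ((γ : SL(2, ℝ)) • z) ∈ tsupport f :=
  subset_tsupport f h

/-- the sum is finite over the fixed finite set of `γ` moving `z`'s compact set to `g • K` -/
theorem GPE_mem (f : ℍ → ℂ) (Γ : Subgroup SL(2, ℝ)) (U : Set SL(2, ℝ)) (V : Set ℍ)
    (g : SL(2, ℝ)) (hg : g ∈ U) (z : ℍ) (hz : z ∈ V) (γ : Γ)
    (h : f (g⁻¹ • ((γ : SL(2, ℝ)) • z)) ≠ 0) :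
    γ ∈ {γ : Γ | ∃ z ∈ V, γ • z ∈ (fun p : SL(2, ℝ) × ℍ => p.1 • p.2) '' (U ×ˢ tsupport f)} := by
  refine ⟨z, hz, (g, g⁻¹ • ((γ : SL(2, ℝ)) • z)), ⟨hg, subset_tsupport f h⟩, ?_⟩
  show g • g⁻¹ • ((γ : SL(2, ℝ)) • z) = γ • z
  rw [smul_inv_smul]
  rfl

theorem GPE_cont (hlc : LocallyCompactSpace SL(2, ℝ)) (Γ : Subgroup SL(2, ℝ))
    (hfin : ∀ K₁ K₂ : Set ℍ, IsCompact K₁ → IsCompact K₂ → {γ : Γ | ∃ z ∈ K₁, γ • z ∈ K₂}.Finite)
    (f : ℍ → ℂ) (hf : Continuous f) (hfc : HasCompactSupport f) :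
    Continuous (fun p : SL(2, ℝ) × ℍ => per Γ f p.1 p.2) := by
  unfold per
  refine continuous_finsum ?_ ?_
  · intro γ
    fun_prop
  · intro p
    obtain ⟨U, hUc, hU⟩ := exists_compact_mem_nhds p.1
    obtain ⟨V, hVc, hV⟩ := exists_compact_mem_nhds p.2
    refine ⟨U ×ˢ V, prod_mem_nhds hU hV, ?_⟩
    have hK₂ : IsCompact ((fun p : SL(2, ℝ) × ℍ => p.1 • p.2) '' (U ×ˢ tsupport f)) :=
      (hUc.prod hfc).image (by fun_prop)
    refine (hfin V _ hVc hK₂).subset ?_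
    rintro γ ⟨q, hq1, hq2⟩
    exact GPE_mem f Γ U V q.1 hq2.1 q.2 hq2.2 γ hq1

theorem GPE_c1 (Γ : Subgroup SL(2, ℝ)) (f : ℍ → ℂ)
    (h : Continuous (fun p : SL(2, ℝ) × ℍ => per Γ f p.1 p.2)) (g : SL(2, ℝ)) :
    Continuous (fun z : ℍ => per Γ f g z) := by
  have h1 : Continuous fun z : ℍ => (g, z) := continuous_const.prodMk continuous_id
  have h2 := Continuous.comp h h1
  exact h2

theorem GPE_c2 (Γ : Subgroup SL(2, ℝ)) (f : ℍ → ℂ)
    (h : Continuous (fun p : SL(2, ℝ) × ℍ => per Γ f p.1 p.2)) (z : ℍ) :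
    Continuous (fun g : SL(2, ℝ) => per Γ f g z) := by
  have h1 : Continuous fun g : SL(2, ℝ) => (g, z) := continuous_id.prodMk continuous_const
  have h2 := Continuous.comp h h1
  exact h2

theorem GPE_inv1 (Γ : Subgroup SL(2, ℝ)) (f : ℍ → ℂ) (γ : Γ) (g : SL(2, ℝ)) (z : ℍ) :
    per Γ f g (γ • z) = per Γ f g z := by
  unfold per
  rw [← finsum_comp_equiv (Equiv.mulRight γ) (f := fun σ : Γ => f (g⁻¹ • ((σ : SL(2, ℝ)) • z)))]
  refine finsum_congr fun σ => ?_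
  congr 2
  show (σ : SL(2, ℝ)) • ((γ : SL(2, ℝ)) • z) = ((σ * γ : Γ) : SL(2, ℝ)) • z
  rw [Subgroup.coe_mul, mul_smul]

theorem GPE_inv2 (Γ : Subgroup SL(2, ℝ)) (f : ℍ → ℂ) (γ : Γ) (g : SL(2, ℝ)) (z : ℍ) :
    per Γ f ((γ : SL(2, ℝ)) * g) z = per Γ f g z := by
  unfold per
  rw [← finsum_comp_equiv (Equiv.mulLeft γ⁻¹) (f := fun σ : Γ => f (g⁻¹ • ((σ : SL(2, ℝ)) • z)))]
  refine finsum_congr fun σ => ?_
  congr 1
  show ((γ : SL(2, ℝ)) * g)⁻¹ • ((σ : SL(2, ℝ)) • z) = g⁻¹ • (((γ⁻¹ * σ : Γ) : SL(2, ℝ)) • z)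
  rw [Subgroup.coe_mul, Subgroup.coe_inv, smul_smul, smul_smul]
  congr 1
  group

/-- unfolding -/
theorem GPE_unfold (Γ : Subgroup SL(2, ℝ)) (F : Set ℍ) (f : ℍ → ℂ) (hF : QU.NiceDom Γ F)
    (hcount : Countable Γ) (hinv : SMulInvariantMeasure Γ ℍ (volume : Measure ℍ))
    (hfd : IsFundamentalDomain Γ F (volume : Measure ℍ))
    (hfin : ∀ K₁ K₂ : Set ℍ, IsCompact K₁ → IsCompact K₂ → {γ : Γ | ∃ z ∈ K₁, γ • z ∈ K₂}.Finite)
    (hf : Continuous f) (hfc : HasCompactSupport f) (u : ℍ → ℂ) (hu : InvC Γ u) (g : SL(2, ℝ)) :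
    ∫ z in F, per Γ f g z * u z = Wf f u g := by
  classical
  obtain ⟨KF, hKF, hFK⟩ := hF.rel
  have hW : Wf f u g = ∫ z : ℍ, f (g⁻¹ • z) * u z := by
    unfold Wf
    rw [← QU.INV.2.2.2.1 ℂ g (fun z => f (g⁻¹ • z) * u z)]
    simp only [inv_smul_smul]
  have hcont : Continuous (fun z : ℍ => f (g⁻¹ • z) * u z) := by
    have := hu.1
    fun_prop
  have hcs : HasCompactSupport (fun z : ℍ => f (g⁻¹ • z)) :=
    hfc.comp_homeomorph (Homeomorph.smul g⁻¹)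
  have hint : Integrable (fun z : ℍ => f (g⁻¹ • z) * u z) (volume : Measure ℍ) :=
    hcont.integrable_of_hasCompactSupport hcs.mul_right
  rw [hW, hfd.integral_eq_tsum'' _ hint]
  have hK₂ : IsCompact ((fun p : SL(2, ℝ) × ℍ => p.1 • p.2) '' (({g} : Set SL(2, ℝ)) ×ˢ tsupport f)) :=
    (isCompact_singleton.prod hfc).image (by fun_prop)
  have hA := hfin KF _ hKF hK₂
  have hzero : ∀ γ : Γ, γ ∉ hA.toFinset → ∀ z ∈ F, f (g⁻¹ • ((γ : SL(2, ℝ)) • z)) = 0 := by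
    intro γ hγ z hz
    by_contra h
    exact hγ (hA.mem_toFinset.mpr (GPE_mem f Γ {g} KF g rfl z (hFK hz) γ h))
  rw [tsum_eq_sum (s := hA.toFinset)]
  swap
  · intro γ hγ
    rw [setIntegral_congr_fun hF.meas (g := fun _ => (0 : ℂ))]
    · simp
    · intro z hz
      show f (g⁻¹ • ((γ : SL(2, ℝ)) • z)) * u (γ • z) = 0
      rw [hzero γ hγ z hz, zero_mul]
  rw [← integral_finsetSum]
  swap
  · intro γ _
    have hc : Continuous (fun z : ℍ => f (g⁻¹ • (γ • z)) * u (γ • z)) := by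
      have h1 : Continuous (fun z : ℍ => γ • z) :=
        (continuous_const_smul (γ : SL(2, ℝ)) : Continuous fun z : ℍ => (γ : SL(2, ℝ)) • z)
      exact hcont.comp h1
    exact (hc.continuousOn.integrableOn_compact hKF).mono_set hFK
  refine setIntegral_congr_fun hF.meas ?_
  intro z hz
  show per Γ f g z * u z = ∑ γ ∈ hA.toFinset, f (g⁻¹ • (γ • z)) * u (γ • z)
  unfold per
  rw [finsum_eq_sum_of_support_subset (s := hA.toFinset), Finset.sum_mul]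
  · refine Finset.sum_congr rfl fun γ _ => ?_
    rw [hu.2 γ z]
    rfl
  · intro γ hγ
    by_contra h
    exact hγ (hzero γ h z hz)

theorem GPE (hGLC : GLC_stmt) (hGMG : GMG_stmt) : GPE_stmt := by
  intro Γ F f hΓ hF hf hfc
  obtain ⟨hcount, hfd, -, hvol, -, hfin⟩ := QU.DOB QU.INV Γ F hΓ hF
  have hinv : SMulInvariantMeasure Γ ℍ (volume : Measure ℍ) := QU.INV.2.1 Γ
  have hlc := hGLC.1
  have hsc := hGLC.2.1
  obtain ⟨n, hn⟩ := GPE_count Γ hΓ (tsupport f) hfc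
  have hn' : ∀ (g : SL(2, ℝ)) (z : ℍ), {γ : Γ | f (g⁻¹ • ((γ : SL(2, ℝ)) • z)) ≠ 0}.Finite ∧
      {γ : Γ | f (g⁻¹ • ((γ : SL(2, ℝ)) • z)) ≠ 0}.ncard ≤ n := by
    intro g z
    have hsub : {γ : Γ | f (g⁻¹ • ((γ : SL(2, ℝ)) • z)) ≠ 0} ⊆
        {γ : Γ | g⁻¹ • ((γ : SL(2, ℝ)) • z) ∈ tsupport f} :=
      fun γ hγ => GPE_supp f g Γ z γ hγ
    exact ⟨(hn g z).1.subset hsub, (Set.ncard_le_ncard hsub (hn g z).1).trans (hn g z).2⟩
  have hcont := GPE_cont hlc Γ hfin f hf hfc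
  obtain ⟨C, hC⟩ := hfc.exists_bound_of_continuous hf
  have hC0 : 0 ≤ C := (norm_nonneg _).trans (hC I)
  have hbd : ∀ g z, ‖per Γ f g z‖ ≤ n * C := by
    intro g z
    unfold per
    rw [finsum_eq_sum_of_support_subset (s := (hn' g z).1.toFinset)]
    · refine (norm_sum_le _ _).trans ?_
      refine (Finset.sum_le_card_nsmul _ _ C fun γ _ => hC _).trans ?_
      rw [nsmul_eq_mul]
      refine mul_le_mul_of_nonneg_right ?_ hC0
      rw [← Set.ncard_eq_toFinset_card _ (hn' g z).1]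
      exact_mod_cast (hn' g z).2
    · intro γ hγ
      rw [Finset.mem_coe, Set.Finite.mem_toFinset]
      exact hγ
  refine ⟨⟨n, hn'⟩, hcont, fun γ g z => GPE_inv1 Γ f γ g z, fun γ g z => GPE_inv2 Γ f γ g z,
    fun u hu g => GPE_unfold Γ F f hF hcount hinv hfd hfin hf hfc u hu g, ⟨n * C, hbd⟩, ?_⟩
  unfold kk
  have hfm : IsFiniteMeasure ((volume : Measure ℍ).restrict F) :=
    isFiniteMeasure_restrict.mpr hvol.ne
  have hb : Integrable (fun _ : ℍ => ((n : ℝ) * C) * (n * C)) ((volume : Measure ℍ).restrict F) :=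
    integrable_const _
  refine continuous_of_dominated (bound := fun _ => ((n : ℝ) * C) * (n * C)) ?_ ?_ hb ?_
  · intro p
    exact ((GPE_c1 Γ f hcont p.1).mul (GPE_c1 Γ f hcont p.2)).aestronglyMeasurable
  · intro p
    refine Eventually.of_forall fun z => ?_
    rw [norm_mul]
    exact mul_le_mul (hbd _ _) (hbd _ _) (norm_nonneg _) ((norm_nonneg _).trans (hbd I.toSL2R I))
  · refine Eventually.of_forall fun z => ?_
    exact ((GPE_c2 Γ f hcont z).comp' continuous_fst).mul ((GPE_c2 Γ f hcont z).comp' continuous_snd)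

end Pool.Agent.RS
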